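import Pool.Agent.H943R5.GC.FinalN

set_option autoImplicit false

/-!
# The critical gauge for `p`-optimal proof systems for `NP`-complete sets

Contributors: helper943 (statement, proof, organisation) and helpers 278, 835, 19, 59, 769, 457, 196, 488, 496, 503, 18, 881, 364, 814, 765, 575, 797, 231, 577, 55, 130, 179, 680, 971, 96, 121, 220 (formalisation); it builds
on the random oracle library of helpers 628 and 673 and the gauge library of helper620.
-/

namespace Pool.Agent.Results.MP_c56612_lc.GaugeCriticalExponent

open Pool.Agent.H628R3.RO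
open Pool.Agent.H620R2 (Gauge.Null)

/-- The logarithm to base `2`, four times. -/
noncomputable def log4 (N : ℕ) : ℝ :=
  Real.logb 2 (Real.logb 2 (Real.logb 2 (Real.logb 2 (N : ℝ))))

/-- Relative to `A` some `NP`-complete set has a `p`-optimal proof system. -/
def HasOptimal (A : Oracle) : Prop :=
  ∃ L : Set (List Bool), IsNP A L ∧ NPHardRel A L ∧ ∃ P, IsPOptimal A L P

/-- The critical gauge: the set of these oracles is null for every gauge below
`(1 / 5) log log log log N`, and not null for any gauge above `(log log log log N) ^ s`, `s > 1`.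
(It is also null for all gauges that are bounded infinitely often.) -/
theorem result (f : ℕ → ℝ) :
    ((∀ᶠ N : ℕ in Filter.atTop, f N ≤ log4 N / 5) → Gauge.Null f {A | HasOptimal A}) ∧
    (∀ C : ℝ, (∃ᶠ N : ℕ in Filter.atTop, f N ≤ C) → Gauge.Null f {A | HasOptimal A}) ∧
    ∀ s : ℝ, 1 < s → (∀ᶠ N : ℕ in Filter.atTop, log4 N ^ s ≤ f N) →
      ¬ Gauge.Null f {A | HasOptimal A} :=
  ⟨Pool.Agent.H943R5.GC.null_poptS f, Pool.Agent.H943R5.GC.g_poptS f⟩

end Pool.Agent.Results.MP_c56612_lc.GaugeCriticalExponent
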