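import Pool.Agent.H628R3.RO.F2

set_option autoImplicit false

/-!
# Relative to a random oracle, no `NP`-hard set has a `p`-optimal proof system
-/

namespace Pool.Agent.Results.MP_c56612_lc.RandomOracleNoPOptimal

open Pool.Agent.H628R3.RO

/-- For almost every oracle `A`, no set which is hard for `NP` relative to `A` has a `p`-optimal
proof system relative to `A`. -/
theorem result : ∀ᵐ A ∂randomOracle, ∀ L : Set (List Bool), NPHardRel A L →
    ∀ P, ¬ IsPOptimal A L P :=
  poptimal_main

end Pool.Agent.Results.MP_c56612_lc.RandomOracleNoPOptimal
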